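import Mathlib
import Pool.Agent.R471.RD.Fin
import Pool.Agent.R471.RD.Num

/-!
Decimal palindromes which miss one, two or three digits at the end of the digit range and have few prime factors.
-/

set_option autoImplicit false

namespace Pool.Agent.Results.MP_540de1_nt.MissingDigits

open Finset Filter Pool.Agent.W89.PW

open Classical in
/-- Let `0 ≤ θ < 1` and `C ≤ (r - 0.182) (1 - θ)` with `C = 2.93, 4.16, 8.43` for `k = 9, 8, 7`.  For all large `N`,
all `K ≤ θ N`, all `w` with exactly `K + 1` decimal digits and first digit 1, 3, 7 or 9, and all intervals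
`{a, …, a + k - 1}` of `k` decimal digits, at least `6 ^ (N - K)` of the numbers `n < 10 ^ (2 N + 1)` whose first `K + 1`
digits form `w` (that is `n / 10 ^ (2 N - K) = w`) have a decimal digit sequence equal to its own reverse, have all
digits in the places `K + 1, …, 2 N - K - 1` in `{a, …, a + k - 1}`, and have at most `r` prime factors counted with
multiplicity, each of them larger than `10 ^ ((N - K) / 25)`. -/
theorem result (k r : ℕ) (θ : ℝ) (hθ0 : 0 ≤ θ) (hθ1 : θ < 1)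
    (h : (k = 9 ∧ 293 / 100 ≤ ((r : ℝ) - 182 / 1000) * (1 - θ)) ∨
      (k = 8 ∧ 416 / 100 ≤ ((r : ℝ) - 182 / 1000) * (1 - θ)) ∨
      (k = 7 ∧ 843 / 100 ≤ ((r : ℝ) - 182 / 1000) * (1 - θ))) :
    ∀ᶠ N : ℕ in atTop, ∀ K : ℕ, (K : ℝ) ≤ θ * N → ∀ w : ℕ, 10 ^ K ≤ w → w < 10 ^ (K + 1) →
      (w / 10 ^ K).Coprime 10 → ∀ a : ℕ, a + k ≤ 10 →
      (6 : ℝ) ^ (N - K) ≤ (((range (10 ^ (2 * N + 1))).filter (fun n => n / 10 ^ (2 * N - K) = w ∧
        (Nat.digits 10 n).reverse = Nat.digits 10 n ∧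
        (∀ i : ℕ, K < i → i < 2 * N - K → a ≤ n / 10 ^ i % 10 ∧ n / 10 ^ i % 10 < a + k) ∧
        n.primeFactorsList.length ≤ r ∧
        ∀ p ∈ n.primeFactorsList, (10 : ℝ) ^ (((N - K : ℕ) : ℝ) / 25) < p)).card : ℝ) := by
  have h0 : 0 < 1 - θ := by linarith
  have e : ∀ M : ℕ, (10 : ℝ) ^ (1 / 25 * (M : ℝ)) = (10 : ℝ) ^ ((M : ℝ) / 25) := by
    intro M
    congr 1
    ring
  obtain ⟨s, t, κ, hst, hs, ht, hκ0, hκη, hκ, hm4, hE, hr⟩ : ∃ (s t : ℕ) (κ : ℝ), s + t = k + 1 ∧ 2 ≤ s ∧ 1 ≤ t ∧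
      0 < κ ∧ 1 / 25 < κ / 6 ∧ ((10 : ℕ) : ℝ) ^ κ * HH s t < 1 ∧ ((10 : ℕ) : ℝ) * m4 s t < 1 ∧
      (6 : ℝ) < ((s : ℝ) * t) ^ 2 / (Eset s t).card ∧
      1 / (8466 / 10000 : ℝ) + 88 / (43 * κ * (1 - θ)) < r + 1 := by
    have hgen : ∀ κ C : ℝ, 0 < κ → 88 / (43 * κ) < C → C ≤ ((r : ℝ) - 182 / 1000) * (1 - θ) →
        1 / (8466 / 10000 : ℝ) + 88 / (43 * κ * (1 - θ)) < r + 1 := by
      intro κ C hκ h1 h2
      have h3 : 88 / (43 * κ * (1 - θ)) = (88 / (43 * κ)) / (1 - θ) := by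
        rw [div_div]
      have h4 : (88 / (43 * κ)) / (1 - θ) < (r : ℝ) - 182 / 1000 := by
        rw [div_lt_iff₀ h0]
        linarith
      rw [h3]
      norm_num
      linarith
    have hpow : ∀ (m n : ℕ) (x : ℝ), 0 < n → 0 < x → (10 : ℝ) ^ m * x ^ n < 1 → (10 : ℝ) ^ ((m : ℝ) / n) * x < 1 := by
      intro m n x hn hx h1
      have h2 : ((10 : ℝ) ^ ((m : ℝ) / n) * x) ^ n < 1 := by
        rw [mul_pow, ← Real.rpow_natCast ((10 : ℝ) ^ ((m : ℝ) / n)) n, ← Real.rpow_mul (by norm_num)]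
        have hn' : (n : ℝ) ≠ 0 := by positivity
        rw [div_mul_cancel₀ _ hn', Real.rpow_natCast]
        exact h1
      by_contra hcon
      push Not at hcon
      exact absurd (one_le_pow₀ hcon) (not_le.2 h2)
    rcases h with ⟨rfl, h⟩ | ⟨rfl, h⟩ | ⟨rfl, h⟩
    · refine ⟨5, 5, 109 / 156, by norm_num, by norm_num, by norm_num, by norm_num, by norm_num, ?_, ?_, ?_, ?_⟩
      · have h1 := hpow 109 156 (HH 5 5) (by norm_num) (by unfold HH; norm_num) (by unfold HH; norm_num)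
        push_cast at h1 ⊢
        exact h1
      · have := Pool.Agent.R471.RD.Num.m4_55
        push_cast
        exact this
      · have h1 : (Eset 5 5).card = 85 := by decide +kernel
        rw [h1]
        norm_num
      · exact hgen _ _ (by norm_num) (by norm_num) h
    · refine ⟨7, 2, 67 / 136, by norm_num, by norm_num, by norm_num, by norm_num, by norm_num, ?_, ?_, ?_, ?_⟩
      · have h1 := hpow 67 136 (HH 7 2) (by norm_num) (by unfold HH; norm_num) (by unfold HH; norm_num)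
        push_cast at h1 ⊢
        exact h1
      · exact Pool.Agent.R471.RD.Num.m4_lt (b := 10) (by norm_num) (by norm_num) (by norm_num)
      · have h1 : (Eset 7 2).card = 26 := by decide +kernel
        rw [h1]
        norm_num
      · exact hgen _ _ (by norm_num) (by norm_num) h
    · refine ⟨7, 1, 17 / 70, by norm_num, by norm_num, by norm_num, by norm_num, by norm_num, ?_, ?_, ?_, ?_⟩
      · have h1 := hpow 17 70 (HH 7 1) (by norm_num) (by unfold HH; norm_num) (by unfold HH; norm_num)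
        push_cast at h1 ⊢
        exact h1
      · exact Pool.Agent.R471.RD.Num.m4_lt (b := 10) (by norm_num) (by norm_num) (by norm_num)
      · have h1 : (Eset 7 1).card = 7 := by decide +kernel
        rw [h1]
        norm_num
      · exact hgen _ _ (by norm_num) (by norm_num) h
  have hk10 : k ≤ 9 := by
    rcases h with ⟨rfl, -⟩ | ⟨rfl, -⟩ | ⟨rfl, -⟩ <;> norm_num
  have hmain := Pool.Agent.R471.RD.Fin.rdN (b := 10) (s := s) (t := t) (r := r) (κ := κ) (lam := 8466 / 10000)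
    (B := 6) (η := 1 / 25) (θ := θ) (by norm_num) hs ht (by omega) hκ0 hκ hm4 (by norm_num) (by norm_num)
    (by norm_num) hθ0 hθ1 hr (by norm_num) hE hκη
  filter_upwards [hmain] with N hN K hK w hw1 hw2 hw3 a ha
  have hN' := hN K hK w hw1 hw2 hw3 a (by omega)
  refine hN'.trans ?_
  have hsub : ∀ S T : Finset ℕ, S ⊆ T → (S.card : ℝ) ≤ T.card := fun S T h => by exact_mod_cast card_le_card h
  apply hsub
  intro n hn
  rw [mem_filter] at hn ⊢
  obtain ⟨h1, h2, h3, h4, h5, h6⟩ := hn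
  refine ⟨h1, h2, h3, fun i hi1 hi2 => ?_, h5, fun p hp => ?_⟩
  · have := h4 i hi1 hi2
    omega
  · have := h6 p hp
    push_cast at this
    rw [← e]
    push_cast
    exact this

end Pool.Agent.Results.MP_540de1_nt.MissingDigits
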