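import Mathlib
import Pool.Agent.R471.PP.Final

/-!
# Polynomial values at decimal palindromes

For every polynomial `F` with integer coefficients such that `n F(n)` has no fixed prime divisor there are many decimal
palindromes `n` for which both `n` and `F(n)` have a bounded number of prime factors, all of them large; also with
prescribed leading digits (in short intervals).  Example: `n`, `n + 2`, `n + 6`, `n + 8`.
-/

set_option autoImplicit false

namespace Pool.Agent.Results.MP_540de1_nt.PolynomialValues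

open Finset Polynomial

/-- the decimal palindromes with exactly `2 N + 1` digits -/
def Pal (N : ℕ) : Finset ℕ :=
  (range (10 ^ (2 * N + 1))).filter (fun n => 10 ^ (2 * N) ≤ n ∧ (Nat.digits 10 n).reverse = Nat.digits 10 n)

/-- `F(n) ≠ 0`, and every prime factor `p` of `n F(n)` satisfies `p ^ B > y` -/
def Rough (F : ℤ[X]) (B y n : ℕ) : Prop :=
  F.eval (n : ℤ) ≠ 0 ∧ ∀ p : ℕ, p.Prime → (p : ℤ) ∣ (n : ℤ) * F.eval (n : ℤ) → y < p ^ B

/-- the number of prime factors of `|z|`, counted with multiplicity -/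
def Om (z : ℤ) : ℕ := z.natAbs.primeFactorsList.length

lemma mem_pal {L N n x : ℕ} (hN : L < N) (h1 : n < 10 ^ (2 * N + 1))
    (h2 : (Nat.digits 10 n).reverse = Nat.digits 10 n) (h3 : n / 10 ^ (N + L + 1) = x / 10 ^ (N + L + 1))
    (hx : 10 ^ (2 * N) ≤ x) : n ∈ Pal N := by
  have e1 : 10 ^ (2 * N) ≤ n := by
    have e2 : 10 ^ (2 * N) / 10 ^ (N + L + 1) ≤ n / 10 ^ (N + L + 1) := by
      rw [h3]
      exact Nat.div_le_div_right hx
    have e3 : 10 ^ (2 * N) = 10 ^ (2 * N - (N + L + 1)) * 10 ^ (N + L + 1) := by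
      rw [← pow_add]
      congr 1
      omega
    rw [e3, Nat.mul_div_cancel _ (by positivity)] at e2
    calc 10 ^ (2 * N) = 10 ^ (2 * N - (N + L + 1)) * 10 ^ (N + L + 1) := e3
      _ ≤ n / 10 ^ (N + L + 1) * 10 ^ (N + L + 1) := Nat.mul_le_mul_right _ e2
      _ ≤ n := Nat.div_mul_le_self _ _
  rw [Pal, mem_filter, mem_range]
  exact ⟨h1, e1, h2⟩

open Classical in
/-- (A) Let `F` be a polynomial with integer coefficients such that no prime divides `n F(n)` for all `n`.  There are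
`c > 0`, `B` and `N₀` with the following properties.  For `N ≥ N₀` at least `c 10 ^ N / N ^ B` of the palindromes `n` with
`2 N + 1` digits are such that `n` and `F(n)` have at most `B` prime factors each, all of them larger than `10 ^ (N / B)`.
For `N₀ ≤ L < N` and every `x` with `2 N + 1` digits whose leading digit `d` is such that `d F(d)` is prime to `10`, at
least `c 10 ^ L / L ^ B` of the palindromes `n` with `2 N + 1` digits have the same `N - L` leading digits as `x` and are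
such that all prime factors of `n F(n)` are larger than `10 ^ (L / B)`, and `n` and `F(n)` have at most `B N / L` prime
factors each.

(B) There are `c > 0`, `B` and `N₀` such that for `N ≥ N₀` at least `c 10 ^ N / N ^ B` of the palindromes `n` with
`2 N + 1` digits are such that `n` and `(n + 2) (n + 6) (n + 8)` have at most `B` prime factors each, all of them larger
than `10 ^ (N / B)`. -/
theorem result :
    (∀ F : ℤ[X], (∀ p : ℕ, p.Prime → ∃ n : ℕ, ¬ (p : ℤ) ∣ (n : ℤ) * F.eval (n : ℤ)) →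
      ∃ c : ℝ, 0 < c ∧ ∃ B N₀ : ℕ,
      (∀ N : ℕ, N₀ ≤ N → c * (10 : ℝ) ^ N / (N : ℝ) ^ B ≤
        (((Pal N).filter (fun n => Rough F B (10 ^ N) n ∧ Om n ≤ B ∧ Om (F.eval (n : ℤ)) ≤ B)).card : ℝ)) ∧
      (∀ L N x : ℕ, N₀ ≤ L → L < N → 10 ^ (2 * N) ≤ x → x < 10 ^ (2 * N + 1) →
        IsCoprime (((x / 10 ^ (2 * N) : ℕ) : ℤ) * F.eval ((x / 10 ^ (2 * N) : ℕ) : ℤ)) 10 →
        c * (10 : ℝ) ^ L / (L : ℝ) ^ B ≤
          (((Pal N).filter (fun n => n / 10 ^ (N + L + 1) = x / 10 ^ (N + L + 1) ∧ Rough F B (10 ^ L) n ∧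
            Om n * L ≤ B * N ∧ Om (F.eval (n : ℤ)) * L ≤ B * N)).card : ℝ))) ∧
    (∃ c : ℝ, 0 < c ∧ ∃ B N₀ : ℕ, ∀ N : ℕ, N₀ ≤ N → c * (10 : ℝ) ^ N / (N : ℝ) ^ B ≤
      (((Pal N).filter (fun n => n.primeFactorsList.length ≤ B ∧
        ((n + 2) * (n + 6) * (n + 8)).primeFactorsList.length ≤ B ∧
        ∀ p : ℕ, p.Prime → p ∣ n * ((n + 2) * (n + 6) * (n + 8)) → 10 ^ N < p ^ B)).card : ℝ)) := by
  have hmain : ∀ F : ℤ[X], (∀ p : ℕ, p.Prime → ∃ n : ℕ, ¬ (p : ℤ) ∣ (n : ℤ) * F.eval (n : ℤ)) →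
      ∃ c : ℝ, 0 < c ∧ ∃ B N₀ : ℕ,
      (∀ N : ℕ, N₀ ≤ N → c * (10 : ℝ) ^ N / (N : ℝ) ^ B ≤
        (((Pal N).filter (fun n => Rough F B (10 ^ N) n ∧ Om n ≤ B ∧ Om (F.eval (n : ℤ)) ≤ B)).card : ℝ)) ∧
      (∀ L N x : ℕ, N₀ ≤ L → L < N → 10 ^ (2 * N) ≤ x → x < 10 ^ (2 * N + 1) →
        IsCoprime (((x / 10 ^ (2 * N) : ℕ) : ℤ) * F.eval ((x / 10 ^ (2 * N) : ℕ) : ℤ)) 10 →
        c * (10 : ℝ) ^ L / (L : ℝ) ^ B ≤
          (((Pal N).filter (fun n => n / 10 ^ (N + L + 1) = x / 10 ^ (N + L + 1) ∧ Rough F B (10 ^ L) n ∧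
            Om n * L ≤ B * N ∧ Om (F.eval (n : ℤ)) * L ≤ B * N)).card : ℝ)) := by
    intro F hF
    obtain ⟨c, hc, B, N₀, h1, h2⟩ := Pool.Agent.R471.PP.final (b := 10) (by norm_num) F hF
    push_cast at h1 h2
    refine ⟨c, hc, B, N₀, fun N hN => ?_, fun L N x hL hN hx1 hx2 hd => ?_⟩
    · refine (h1 N hN).trans ?_
      rw [Nat.cast_le]
      apply card_le_card
      intro n hn
      rw [mem_filter] at hn
      rw [mem_filter, Pal, mem_filter]
      obtain ⟨a1, a2, a3, a4, a5, a6, a7⟩ := hn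
      exact ⟨⟨a1, a2, a3⟩, ⟨a4, a5⟩, by simpa [Om] using a6, a7⟩
    · refine (h2 L N x hL hN hx1 hx2 (by exact_mod_cast hd)).trans ?_
      rw [Nat.cast_le]
      apply card_le_card
      intro n hn
      rw [mem_filter, mem_range] at hn
      rw [mem_filter]
      obtain ⟨a1, a2, a3, a4, a5, a6, a7⟩ := hn
      exact ⟨mem_pal hN a1 a2 a3 hx1, a3, ⟨a4, a5⟩, by simpa [Om] using a6, a7⟩
  refine ⟨hmain, ?_⟩
  obtain ⟨F, hFd⟩ : ∃ F : ℤ[X], F = (X + 2) * (X + 6) * (X + 8) := ⟨_, rfl⟩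
  have hev : ∀ n : ℕ, F.eval (n : ℤ) = (((n + 2) * (n + 6) * (n + 8) : ℕ) : ℤ) := by
    intro n
    rw [hFd]
    simp
  obtain ⟨c, hc, B, N₀, h1, -⟩ := hmain F (by
    intro p hp
    by_cases h : p = 3 ∨ p = 7
    · refine ⟨2, fun hd => ?_⟩
      rw [hev] at hd
      have h2 : p ∣ 640 := by
        have : ((p : ℕ) : ℤ) ∣ ((640 : ℕ) : ℤ) := by
          convert hd using 1
          norm_num
        exact Int.natCast_dvd_natCast.1 this
      rcases h with rfl | rfl <;> omega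
    · refine ⟨1, fun hd => ?_⟩
      rw [hev] at hd
      have h2 : p ∣ 3 ^ 3 * 7 := by
        have : ((p : ℕ) : ℤ) ∣ ((3 ^ 3 * 7 : ℕ) : ℤ) := by
          convert hd using 1
          norm_num
        exact Int.natCast_dvd_natCast.1 this
      rcases (Nat.Prime.dvd_mul hp).1 h2 with h3 | h3
      · exact h (Or.inl ((Nat.prime_dvd_prime_iff_eq hp Nat.prime_three).1 (hp.dvd_of_dvd_pow h3)))
      · exact h (Or.inr ((Nat.prime_dvd_prime_iff_eq hp (by norm_num)).1 h3)))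
  refine ⟨c, hc, B, N₀, fun N hN => ?_⟩
  refine (h1 N hN).trans ?_
  rw [Nat.cast_le]
  apply card_le_card
  intro n hn
  rw [mem_filter] at hn ⊢
  obtain ⟨a1, ⟨a2, a3⟩, a4, a5⟩ := hn
  refine ⟨a1, by simpa [Om] using a4, ?_, fun p hp hpd => a3 p hp ?_⟩
  · rw [hev, Om, Int.natAbs_natCast] at a5
    exact a5
  · rw [hev]
    exact_mod_cast Int.natCast_dvd_natCast.2 hpd

end Pool.Agent.Results.MP_540de1_nt.PolynomialValues
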