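import Mathlib
import Pool.Agent.R471.PalShortFin
import Pool.Agent.W22.PW_M4

/-!
Decimal palindromes with a prescribed initial block of digits and few prime factors.  For `0 ≤ θ < 1` and
`2.778 ≤ (r - 0.182) (1 - θ)` and all large `N`, every block of at most `θ N + 1` digits with first digit 1, 3, 7 or 9
is the initial block of many palindromes with `2 N + 1` digits and at most `r` prime factors.
-/

set_option autoImplicit false

namespace Pool.Agent.Results.MP_540de1_nt.PrescribedLeadingDigits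

open Finset Filter Pool.Agent.W89.PW

/-- Let `0 ≤ θ < 1` and `2.778 ≤ (r - 0.182) (1 - θ)`.  For all large `N`, all `K ≤ θ N` and all `w` with exactly
`K + 1` decimal digits and leading digit `1`, `3`, `7` or `9`, at least `8 ^ (N - K)` of the numbers
`n < 10 ^ (2 N + 1)` whose first `K + 1` digits form `w` (that is `n / 10 ^ (2 N - K) = w`) have a decimal digit
sequence equal to its own reverse and at most `r` prime factors counted with multiplicity, each of them larger than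
`10 ^ ((N - K) / 9)`. -/
theorem result (r : ℕ) (θ : ℝ) (hθ0 : 0 ≤ θ) (hθ1 : θ < 1)
    (hr : 2778 / 1000 ≤ ((r : ℝ) - 182 / 1000) * (1 - θ)) :
    ∀ᶠ N : ℕ in atTop, ∀ K : ℕ, (K : ℝ) ≤ θ * N → ∀ w : ℕ, 10 ^ K ≤ w → w < 10 ^ (K + 1) →
      (w / 10 ^ K = 1 ∨ w / 10 ^ K = 3 ∨ w / 10 ^ K = 7 ∨ w / 10 ^ K = 9) →
      8 ^ (N - K) ≤ ((range (10 ^ (2 * N + 1))).filter (fun n => n / 10 ^ (2 * N - K) = w ∧
        (Nat.digits 10 n).reverse = Nat.digits 10 n ∧ n.primeFactorsList.length ≤ r ∧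
        ∀ p ∈ n.primeFactorsList, (10 : ℝ) ^ (((N - K : ℕ) : ℝ) / 9) < p)).card := by
  classical
  have hm4 : ((10 : ℕ) : ℝ) * m4 5 6 < 1 := by
    have h := Pool.Agent.W22.PWM4.main 10 (by norm_num)
    norm_num at h
    push_cast
    linarith
  have hκ : (((10 : ℕ) : ℝ)) ^ (277 / 376 : ℝ) * HH 5 6 < 1 := by
    have h1 : (10 : ℝ) ^ (277 / 376 : ℝ) < 60 / 11 := by
      have h2 : ((10 : ℝ) ^ (277 / 376 : ℝ)) ^ 376 < (60 / 11) ^ 376 := by
        rw [← Real.rpow_natCast, ← Real.rpow_mul (by norm_num)]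
        have e : (277 / 376 : ℝ) * ((376 : ℕ) : ℝ) = ((277 : ℕ) : ℝ) := by norm_num
        have e1 : (60 / 11 : ℝ) ^ 376 = (60 / 11) ^ 188 * (60 / 11) ^ 188 := by rw [← pow_add]
        have e2 : (10 : ℝ) ^ 277 = 10 ^ 138 * 10 ^ 139 := by rw [← pow_add]
        rw [e, Real.rpow_natCast, e1, e2]
        norm_num
      exact lt_of_pow_lt_pow_left₀ 376 (by norm_num) h2
    unfold HH
    push_cast
    nlinarith
  have hE : (Eset 5 6).card = 110 := by decide +kernel
  have hr' : 1 / (8466 / 10000 : ℝ) + 88 / (43 * (277 / 376 : ℝ) * (1 - θ)) < r + 1 := by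
    have h0 : 0 < 1 - θ := by linarith
    have h1 : 88 / (43 * (277 / 376 : ℝ) * (1 - θ)) = (33088 / 11911) / (1 - θ) := by
      field_simp
      norm_num
    have h2 : (33088 / 11911 : ℝ) / (1 - θ) < (r : ℝ) - 182 / 1000 := by
      rw [div_lt_iff₀ h0]
      norm_num
      linarith
    rw [h1]
    norm_num
    linarith
  have h := Pool.Agent.R471.PShort.shortN (b := 10) (s := 5) (t := 6) (r := r) (κ := 277 / 376) (lam := 8466 / 10000)
    (B := 8) (η := 1 / 9) (θ := θ) (by norm_num) (by norm_num) (by norm_num) (by norm_num) (by norm_num) hκ hm4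
    (by norm_num) (by norm_num) (by norm_num) hθ0 hθ1 hr' (by norm_num) (by rw [hE]; norm_num) (by norm_num)
  filter_upwards [h] with N hN K hK w hw1 hw2 hw3
  have hc : (w / 10 ^ K).Coprime 10 := by
    rcases hw3 with h | h | h | h <;> rw [h] <;> norm_num
  have hN' := hN K hK w hw1 hw2 hc
  have e : (((10 : ℕ) : ℝ)) ^ (1 / 9 * ((N - K : ℕ) : ℝ)) = (10 : ℝ) ^ (((N - K : ℕ) : ℝ) / 9) := by
    push_cast
    congr 1
    ring
  rw [e] at hN'
  have hN2 : ((8 ^ (N - K) : ℕ) : ℝ) ≤ (((range (10 ^ (2 * N + 1))).filter (fun n => n / 10 ^ (2 * N - K) = w ∧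
        (Nat.digits 10 n).reverse = Nat.digits 10 n ∧ n.primeFactorsList.length ≤ r ∧
        ∀ p ∈ n.primeFactorsList, (10 : ℝ) ^ (((N - K : ℕ) : ℝ) / 9) < p)).card : ℝ) := by
    push_cast
    convert hN'
  exact_mod_cast hN2

end Pool.Agent.Results.MP_540de1_nt.PrescribedLeadingDigits
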